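import Pool.Agent.K1H96.SC.Roots

/-!
# Abelian covers: two factors with three branch points and with opposite exponents
-/

set_option autoImplicit false
set_option linter.overlappingInstances false

open Polynomial IntermediateField
open Pool.Agent.K1H17.SC

namespace Pool.Agent.K1H96.SC

section

variable {k L : Type} [Field k] [Field L] [Algebra k L]

/-- squarefree polynomials of degree three -/
lemma three [CharZero k] [IsAlgClosed k] (f : k[X]) (hs : Squarefree f) (hd : f.natDegree = 3) :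
    ∃ c p₁ p₂ p₃ : k, c ≠ 0 ∧ p₁ ≠ p₂ ∧ p₁ ≠ p₃ ∧ p₂ ≠ p₃ ∧ ∀ t : L, aeval t f =
      algebraMap k L c * ((t - algebraMap k L p₁) * (t - algebraMap k L p₂) *
        (t - algebraMap k L p₃)) := by
  have h1 := (IsAlgClosed.splits f).eq_prod_roots
  have h2 := (IsAlgClosed.splits f).natDegree_eq_card_roots
  have h3 := nodup_roots (PerfectField.separable_iff_squarefree.2 hs)
  rw [hd] at h2
  obtain ⟨p₁, p₂, p₃, h4⟩ := Multiset.card_eq_three.1 h2.symm
  rw [h4] at h1 h3
  have hf : f ≠ 0 := by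
    rintro rfl
    simp at hd
  refine ⟨f.leadingCoeff, p₁, p₂, p₃, leadingCoeff_ne_zero.2 hf, ?_, ?_, ?_, ?_⟩
  · rintro rfl
    simp at h3
  · rintro rfl
    simp at h3
  · rintro rfl
    simp at h3
  · intro t
    conv_lhs => rw [h1]
    simp [mul_assoc]

/-- the determinant does not vanish -/
lemma kap {X Y : L} (h : AlgebraicIndependent k ![X, Y]) {p₁ p₂ p₃ q₁ q₂ q₃ : k} (h13 : p₁ ≠ p₃)
    (h23 : p₂ ≠ p₃) (hq : q₁ ≠ q₂) :
    (algebraMap k L q₃ - algebraMap k L q₁) *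
        ((Y - algebraMap k L q₁) * (X - algebraMap k L p₂) -
          (Y - algebraMap k L q₂) * (X - algebraMap k L p₁)) * (X - algebraMap k L p₃) -
      (algebraMap k L q₂ - algebraMap k L q₁) *
        ((Y - algebraMap k L q₁) * (X - algebraMap k L p₃) -
          (Y - algebraMap k L q₃) * (X - algebraMap k L p₁)) * (X - algebraMap k L p₂) ≠ 0 := by
  intro h0
  set P : MvPolynomial (Fin 2) k :=
    (MvPolynomial.C q₃ - MvPolynomial.C q₁) *
        ((MvPolynomial.X 1 - MvPolynomial.C q₁) * (MvPolynomial.X 0 - MvPolynomial.C p₂) -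
          (MvPolynomial.X 1 - MvPolynomial.C q₂) * (MvPolynomial.X 0 - MvPolynomial.C p₁)) *
        (MvPolynomial.X 0 - MvPolynomial.C p₃) -
      (MvPolynomial.C q₂ - MvPolynomial.C q₁) *
        ((MvPolynomial.X 1 - MvPolynomial.C q₁) * (MvPolynomial.X 0 - MvPolynomial.C p₃) -
          (MvPolynomial.X 1 - MvPolynomial.C q₃) * (MvPolynomial.X 0 - MvPolynomial.C p₁)) *
        (MvPolynomial.X 0 - MvPolynomial.C p₂) with hP
  have h1 : MvPolynomial.aeval ![X, Y] P = 0 := by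
    rw [hP]
    simpa using h0
  have h2 : P = 0 := (injective_iff_map_eq_zero _).1 h P h1
  have h3 : MvPolynomial.eval ![p₃, q₃ + 1] P = (q₂ - q₁) * (p₃ - p₁) * (p₃ - p₂) := by
    rw [hP]
    simp
    ring
  rw [h2, map_zero] at h3
  have h4 : (q₂ - q₁) * (p₃ - p₁) * (p₃ - p₂) ≠ 0 :=
    mul_ne_zero (mul_ne_zero (sub_ne_zero.2 hq.symm) (sub_ne_zero.2 h13.symm))
      (sub_ne_zero.2 h23.symm)
  exact h4 h3.symm

/-- recovering `X`, `Y` and `w` -/
lemma recover (K : IntermediateField k L) {X Y w γ l₁ l₂ : L} {c c' p₁ p₂ p₃ q₁ q₂ q₃ : k}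
    (h : AlgebraicIndependent k ![X, Y]) (h13 : p₁ ≠ p₃)
    (h23 : p₂ ≠ p₃) (hq : q₁ ≠ q₂) (hc : c ≠ 0) (hc' : c' ≠ 0) (hw : w ≠ 0)
    (hX1 : X - algebraMap k L p₁ ≠ 0) (hX2 : X - algebraMap k L p₂ ≠ 0)
    (hX3 : X - algebraMap k L p₃ ≠ 0) (hY1 : Y - algebraMap k L q₁ ≠ 0)
    (hY2 : Y - algebraMap k L q₂ ≠ 0) (hY3 : Y - algebraMap k L q₃ ≠ 0)
    (hγ : γ = w ^ 3 / ((algebraMap k L c * ((X - algebraMap k L p₁) * (X - algebraMap k L p₂) *
        (X - algebraMap k L p₃))) / (algebraMap k L c' * ((Y - algebraMap k L q₁) *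
          (Y - algebraMap k L q₂) * (Y - algebraMap k L q₃)))))
    (hl₁ : l₁ = w * (Y - algebraMap k L q₁) / (X - algebraMap k L p₁))
    (hl₂ : l₂ = w * (Y - algebraMap k L q₂) / (X - algebraMap k L p₂))
    (hγK : γ ∈ K) (hl₁K : l₁ ∈ K) (hl₂K : l₂ ∈ K) : X ∈ K ∧ Y ∈ K ∧ w ∈ K := by
  have hcst : ∀ c : k, algebraMap k L c ∈ K := fun c => K.algebraMap_mem c
  have hc0 : algebraMap k L c ≠ 0 := (_root_.map_ne_zero _).2 hc
  have hc0' : algebraMap k L c' ≠ 0 := (_root_.map_ne_zero _).2 hc'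
  set l₃ : L := w * (Y - algebraMap k L q₃) / (X - algebraMap k L p₃) with hl₃
  have hl₃K : l₃ ∈ K := by
    have h1 : l₃ = γ * algebraMap k L c / (algebraMap k L c' * l₁ * l₂) := by
      rw [hl₃, hγ, hl₁, hl₂]
      field_simp
    rw [h1]
    exact div_mem (mul_mem hγK (hcst _)) (mul_mem (mul_mem (hcst _) hl₁K) hl₂K)
  have e1 : l₁ * (X - algebraMap k L p₁) = w * (Y - algebraMap k L q₁) := by
    rw [hl₁, div_mul_cancel₀ _ hX1]
  have e2 : l₂ * (X - algebraMap k L p₂) = w * (Y - algebraMap k L q₂) := by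
    rw [hl₂, div_mul_cancel₀ _ hX2]
  have e3 : l₃ * (X - algebraMap k L p₃) = w * (Y - algebraMap k L q₃) := by
    rw [hl₃, div_mul_cancel₀ _ hX3]
  set κ : L := (algebraMap k L q₃ - algebraMap k L q₁) * (l₁ - l₂) -
    (algebraMap k L q₂ - algebraMap k L q₁) * (l₁ - l₃) with hκ
  have hκ0 : κ ≠ 0 := by
    intro h0
    apply kap h h13 h23 hq
    have h1 : w * ((algebraMap k L q₃ - algebraMap k L q₁) *
        ((Y - algebraMap k L q₁) * (X - algebraMap k L p₂) -
          (Y - algebraMap k L q₂) * (X - algebraMap k L p₁)) * (X - algebraMap k L p₃) -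
      (algebraMap k L q₂ - algebraMap k L q₁) *
        ((Y - algebraMap k L q₁) * (X - algebraMap k L p₃) -
          (Y - algebraMap k L q₃) * (X - algebraMap k L p₁)) * (X - algebraMap k L p₂)) =
        κ * ((X - algebraMap k L p₁) * (X - algebraMap k L p₂) * (X - algebraMap k L p₃)) := by
      rw [hκ]
      linear_combination (-(algebraMap k L q₃ - algebraMap k L q₁) *
        (X - algebraMap k L p₂) * (X - algebraMap k L p₃) +
        (algebraMap k L q₂ - algebraMap k L q₁) * (X - algebraMap k L p₂) *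
        (X - algebraMap k L p₃)) * e1 +
        (algebraMap k L q₃ - algebraMap k L q₁) *
        (X - algebraMap k L p₁) * (X - algebraMap k L p₃) * e2 -
        (algebraMap k L q₂ - algebraMap k L q₁) *
        (X - algebraMap k L p₁) * (X - algebraMap k L p₂) * e3
    rw [h0, zero_mul] at h1
    exact (mul_eq_zero.1 h1).resolve_left hw
  have hκK : κ ∈ K := by
    rw [hκ]
    exact sub_mem (mul_mem (sub_mem (hcst _) (hcst _)) (sub_mem hl₁K hl₂K))
      (mul_mem (sub_mem (hcst _) (hcst _)) (sub_mem hl₁K hl₃K))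
  have hX : X ∈ K := by
    have h1 : X = ((algebraMap k L q₃ - algebraMap k L q₁) *
        (l₁ * algebraMap k L p₁ - l₂ * algebraMap k L p₂) -
        (algebraMap k L q₂ - algebraMap k L q₁) *
        (l₁ * algebraMap k L p₁ - l₃ * algebraMap k L p₃)) / κ := by
      rw [eq_div_iff hκ0, hκ]
      linear_combination ((algebraMap k L q₃ - algebraMap k L q₁) -
        (algebraMap k L q₂ - algebraMap k L q₁)) * e1 -
        (algebraMap k L q₃ - algebraMap k L q₁) * e2 +
        (algebraMap k L q₂ - algebraMap k L q₁) * e3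
    rw [h1]
    exact div_mem (sub_mem (mul_mem (sub_mem (hcst _) (hcst _)) (sub_mem (mul_mem hl₁K (hcst _))
      (mul_mem hl₂K (hcst _)))) (mul_mem (sub_mem (hcst _) (hcst _)) (sub_mem
      (mul_mem hl₁K (hcst _)) (mul_mem hl₃K (hcst _))))) hκK
  have hqq : algebraMap k L q₂ - algebraMap k L q₁ ≠ 0 := by
    rw [← map_sub]
    exact (_root_.map_ne_zero _).2 (sub_ne_zero.2 hq.symm)
  have hwK : w ∈ K := by
    have h1 : w = (l₁ * (X - algebraMap k L p₁) - l₂ * (X - algebraMap k L p₂)) /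
        (algebraMap k L q₂ - algebraMap k L q₁) := by
      rw [eq_div_iff hqq, e1, e2]
      ring
    rw [h1]
    exact div_mem (sub_mem (mul_mem hl₁K (sub_mem hX (hcst _)))
      (mul_mem hl₂K (sub_mem hX (hcst _)))) (sub_mem (hcst _) (hcst _))
  refine ⟨hX, ?_, hwK⟩
  have h1 : Y = algebraMap k L q₁ + l₁ * (X - algebraMap k L p₁) / w := by
    rw [e1, mul_div_cancel_left₀ _ hw]
    ring
  rw [h1]
  exact add_mem (hcst _) (div_mem (mul_mem hl₁K (sub_mem hX (hcst _))) hwK)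

end

/-- the exponents modulo three -/
lemma exps {A m : ℤ} (h : m ∣ A * 3) : ∃ b ε : ℤ, 3 * A = m * (3 * b + ε) ∧
    (ε = 0 ∨ ε = 1 ∨ ε = -1) := by
  obtain ⟨e, he⟩ := h
  refine ⟨(e + 1) / 3, e - 3 * ((e + 1) / 3), ?_, ?_⟩
  · rw [mul_comm, he]
    congr 1
    ring
  · omega

theorem t_CUB (hT : S_TRI) (hU : S_UNB) : S_CUB := by
  classical
  intro k L _ _ _ _ _ ι M E T s x f A m τ z h a ha b hb hab hda hdb hAab
  -- the exponents
  have hex : ∀ j, ∃ b ε : ℤ, 3 * A j a = m j * (3 * b + ε) ∧ (ε = 0 ∨ ε = 1 ∨ ε = -1) := by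
    intro j
    have h1 := h.dvd j a ha
    rw [hda] at h1
    exact exps h1
  choose bb ε hbε hε using hex
  choose e he using hAab
  by_cases hall : ∀ j, ε j = 0
  · refine hU k L ι M E T s x f A m τ z h a ha fun j => ⟨bb j, ?_⟩
    have h1 := hbε j
    rw [hall j] at h1
    have h2 : (3 : ℤ) * A j a = 3 * (m j * bb j) := by
      rw [h1]
      ring
    exact mul_left_cancel₀ (by norm_num) h2
  push Not at hall
  obtain ⟨j0, hj0⟩ := hall
  have hεj : ε j0 = 1 ∨ ε j0 = -1 := (hε j0).resolve_left hj0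
  have h3m : 3 ∣ m j0 := by
    have h1 : (3 : ℤ) ∣ (m j0 : ℤ) := by
      have h2 := hbε j0
      rcases hεj with h3 | h3
      · rw [h3] at h2
        exact ⟨A j0 a - m j0 * bb j0, by linear_combination -h2⟩
      · rw [h3] at h2
        exact ⟨-(A j0 a - m j0 * bb j0), by linear_combination h2⟩
    exact_mod_cast h1
  -- the polynomials
  obtain ⟨c, p₁, p₂, p₃, hc, hp12, hp13, hp23, hfa⟩ := three (L := L) (f a) (h.sqf a ha) hda
  obtain ⟨c', q₁, q₂, q₃, hc', hq12, hq13, hq23, hfb⟩ := three (L := L) (f b) (h.sqf b hb) hdb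
  -- independence
  have hindk : AlgebraicIndependent k (fun i : T => x i) :=
    h.indep.restrictScalars (algebraMap k M).injective
  have hf0 : ∀ i ∈ T, aeval (x i) (f i) ≠ 0 := by
    intro i hi h0
    have h1 : Transcendental k (x i) := hindk.transcendental ⟨i, hi⟩
    have h2 : f i = 0 := by
      by_contra hne
      exact h1 ⟨f i, hne, h0⟩
    have h3 := h.deg i hi
    rw [h2, natDegree_zero] at h3
    omega
  have hXY : AlgebraicIndependent k ![x a, x b] := by
    have h1 := hindk.comp (![⟨a, ha⟩, ⟨b, hb⟩] : Fin 2 → T) (by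
      intro i j hij
      fin_cases i <;> fin_cases j
      · rfl
      · exact absurd (congrArg Subtype.val hij) hab
      · exact absurd (congrArg Subtype.val hij) hab.symm
      · rfl)
    have h2 : (fun i : T => x i) ∘ (![⟨a, ha⟩, ⟨b, hb⟩] : Fin 2 → T) = ![x a, x b] := by
      funext i
      fin_cases i <;> rfl
    rw [h2] at h1
    exact h1
  set fa : L := aeval (x a) (f a) with hfa'
  set fb : L := aeval (x b) (f b) with hfb'
  have hfa0 : fa ≠ 0 := hf0 a ha
  have hfb0 : fb ≠ 0 := hf0 b hb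
  have hfae : fa = _ := hfa (x a)
  have hfbe : fb = _ := hfb (x b)
  have hX : x a - algebraMap k L p₁ ≠ 0 ∧ x a - algebraMap k L p₂ ≠ 0 ∧
      x a - algebraMap k L p₃ ≠ 0 := by
    rw [hfae] at hfa0
    refine ⟨?_, ?_, ?_⟩ <;> intro h0 <;> apply hfa0 <;> rw [h0] <;> ring
  have hY : x b - algebraMap k L q₁ ≠ 0 ∧ x b - algebraMap k L q₂ ≠ 0 ∧
      x b - algebraMap k L q₃ ≠ 0 := by
    rw [hfbe] at hfb0
    refine ⟨?_, ?_, ?_⟩ <;> intro h0 <;> apply hfb0 <;> rw [h0] <;> ring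
  -- the smaller set
  set T' : Finset ι := (T.erase a).erase b with hT'
  have hbT : b ∈ T.erase a := Finset.mem_erase.2 ⟨hab.symm, hb⟩
  have hsub : T' ⊆ T := (Finset.erase_subset _ _).trans (Finset.erase_subset _ _)
  have hcard : T'.card + 2 = T.card := by
    rw [hT', Finset.card_erase_of_mem hbT, Finset.card_erase_of_mem ha]
    have h1 : 0 < (T.erase a).card := Finset.card_pos.2 ⟨b, hbT⟩
    rw [Finset.card_erase_of_mem ha] at h1
    omega
  have hprod : ∀ j, ∏ i ∈ T, aeval (x i) (f i) ^ A j i =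
      fa ^ A j a * fb ^ A j b * ∏ i ∈ T', aeval (x i) (f i) ^ A j i := by
    intro j
    rw [← Finset.mul_prod_erase T _ ha, ← Finset.mul_prod_erase (T.erase a) _ hbT, mul_assoc]
  set y : Fin s → L := fun j => z j * fb ^ (-e j) with hy
  have hyE : ∀ j, y j ^ m j = τ j * (fa / fb) ^ A j a *
      ∏ i ∈ T', aeval (x i) (f i) ^ A j i := by
    intro j
    have h1 : (fb ^ (-e j)) ^ m j = fb ^ (-(A j a + A j b)) := by
      rw [← zpow_natCast, ← zpow_mul, he j]
      congr 1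
      ring
    rw [hy]
    simp only
    rw [mul_pow, h.root j, hprod j, h1, div_zpow, neg_add, zpow_add₀ hfb0, zpow_neg, zpow_neg]
    have h2 : fb ^ A j a ≠ 0 := zpow_ne_zero _ hfb0
    have h3 : fb ^ A j b ≠ 0 := zpow_ne_zero _ hfb0
    field_simp
  have hF0 : fa / fb ≠ 0 := div_ne_zero hfa0 hfb0
  obtain ⟨w, A', m', τ', z', hw, hSC, hz0, hz, hzw⟩ := roots M T' x f A m
    (h.indep.comp (fun i : T' => (⟨i, hsub i.2⟩ : T)) (fun i j hij => by
      have := congrArg Subtype.val hij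
      exact Subtype.ext this))
    (fun i hi => h.deg i (hsub hi)) (fun i hi => h.sqf i (hsub hi)) h.pos
    (fun j i hi => h.dvd j i (hsub hi)) (fun i hi => hf0 i (hsub hi)) 3 (by norm_num) (fa / fb)
    hF0 τ h.mem h.ne0 (fun j => A j a) bb ε y hyE (fun j => by exact_mod_cast hbε j) j0 hεj h3m
  set E' : IntermediateField k L := M ⊔ adjoin k (x '' T') ⊔ adjoin k (Set.range z') with hE'
  set l₁ : L := w * (x b - algebraMap k L q₁) / (x a - algebraMap k L p₁) with hl₁
  set l₂ : L := w * (x b - algebraMap k L q₂) / (x a - algebraMap k L p₂) with hl₂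
  set E2 : IntermediateField k L := E' ⊔ adjoin k (Set.range ![l₁, l₂]) with hE2
  have hεε : ε j0 * ε j0 = 1 := by
    rcases hεj with h | h <;> rw [h] <;> norm_num
  -- memberships in `E`
  have hME : M ≤ E := by
    rw [← h.gen]
    exact le_sup_left.trans le_sup_left
  have hxE : ∀ i ∈ T, x i ∈ E := by
    intro i hi
    rw [← h.gen]
    exact (le_sup_right.trans le_sup_left :
      adjoin k (x '' T) ≤ M ⊔ adjoin k (x '' T) ⊔ adjoin k (Set.range z))
      (subset_adjoin k _ ⟨i, hi, rfl⟩)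
  have hzE : ∀ j, z j ∈ E := by
    intro j
    rw [← h.gen]
    exact (le_sup_right :
      adjoin k (Set.range z) ≤ M ⊔ adjoin k (x '' T) ⊔ adjoin k (Set.range z))
      (subset_adjoin k _ ⟨j, rfl⟩)
  have hpol : ∀ (K : IntermediateField k L) (i : ι), x i ∈ K → aeval (x i) (f i) ∈ K := by
    intro K i hi
    have h1 : aeval (x i) (f i) = ((aeval (⟨x i, hi⟩ : K) (f i) : K) : L) :=
      (aeval_algebraMap_apply L (⟨x i, hi⟩ : K) (f i))
    rw [h1]
    exact SetLike.coe_mem _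
  have hfaE : fa ∈ E := hpol E a (hxE a ha)
  have hfbE : fb ∈ E := hpol E b (hxE b hb)
  have hyEm : ∀ j, y j ∈ E := fun j => mul_mem (hzE j) (zpow_mem hfbE _)
  have hFE : fa / fb ∈ E := div_mem hfaE hfbE
  have hwE : w ∈ E := by
    have h1 : w ^ ε j0 ∈ E := by
      rw [← hzw]
      exact mul_mem (hyEm j0) (zpow_mem hFE _)
    have h2 : w = (w ^ ε j0) ^ ε j0 := by rw [← zpow_mul, hεε, zpow_one]
    rw [h2]
    exact zpow_mem h1 _
  have hz'E : ∀ j, z' j ∈ E := by
    intro j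
    by_cases hj : j = j0
    · rw [hj, hz0]
      exact div_mem (pow_mem hwE _) hFE
    · rw [hz j hj]
      exact div_mem (mul_mem (hyEm j) (zpow_mem hFE _)) (zpow_mem hwE _)
  have hcst : ∀ (K : IntermediateField k L) (c : k), algebraMap k L c ∈ K :=
    fun K c => K.algebraMap_mem c
  have hE'E : E' ≤ E := by
    refine sup_le (sup_le hME (adjoin_le_iff.2 ?_)) (adjoin_le_iff.2 ?_)
    · rintro _ ⟨i, hi, rfl⟩
      exact hxE i (hsub hi)
    · rintro _ ⟨j, rfl⟩
      exact hz'E j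
  have hE2E : E2 ≤ E := by
    refine sup_le hE'E (adjoin_le_iff.2 ?_)
    rintro _ ⟨i, rfl⟩
    fin_cases i
    · exact div_mem (mul_mem hwE (sub_mem (hxE b hb) (hcst E _))) (sub_mem (hxE a ha) (hcst E _))
    · exact div_mem (mul_mem hwE (sub_mem (hxE b hb) (hcst E _))) (sub_mem (hxE a ha) (hcst E _))
  -- memberships in `E2`
  have hE'2 : E' ≤ E2 := le_sup_left
  have hl₁2 : l₁ ∈ E2 := (le_sup_right : adjoin k (Set.range ![l₁, l₂]) ≤ E2)
    (subset_adjoin k _ ⟨0, rfl⟩)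
  have hl₂2 : l₂ ∈ E2 := (le_sup_right : adjoin k (Set.range ![l₁, l₂]) ≤ E2)
    (subset_adjoin k _ ⟨1, rfl⟩)
  have hz'2 : ∀ j, z' j ∈ E2 := fun j => hE'2 ((le_sup_right :
    adjoin k (Set.range z') ≤ E') (subset_adjoin k _ ⟨j, rfl⟩))
  have hγ : z' j0 = w ^ 3 / ((algebraMap k L c * ((x a - algebraMap k L p₁) *
      (x a - algebraMap k L p₂) * (x a - algebraMap k L p₃))) /
      (algebraMap k L c' * ((x b - algebraMap k L q₁) * (x b - algebraMap k L q₂) *
        (x b - algebraMap k L q₃)))) := by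
    rw [hz0, hfae, hfbe]
  obtain ⟨hxa2, hxb2, hw2⟩ := recover E2 hXY hp13 hp23 hq12 hc hc' hw hX.1 hX.2.1 hX.2.2 hY.1
    hY.2.1 hY.2.2 hγ hl₁ hl₂ (hz'2 j0) hl₁2 hl₂2
  have hfa2 : fa ∈ E2 := hpol E2 a hxa2
  have hfb2 : fb ∈ E2 := hpol E2 b hxb2
  have hF2 : fa / fb ∈ E2 := div_mem hfa2 hfb2
  have hz2 : ∀ j, z j ∈ E2 := by
    intro j
    have h1 : y j * (fa / fb) ^ (-bb j) ∈ E2 := by
      by_cases hj : j = j0
      · rw [hj, hzw]
        exact zpow_mem hw2 _
      · have h2 : y j * (fa / fb) ^ (-bb j) = z' j * w ^ ε j := by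
          rw [hz j hj, div_mul_cancel₀ _ (zpow_ne_zero _ hw)]
        rw [h2]
        exact mul_mem (hz'2 j) (zpow_mem hw2 _)
    have h2 : z j = y j * (fa / fb) ^ (-bb j) * (fa / fb) ^ bb j * fb ^ e j := by
      rw [mul_assoc (y j), ← zpow_add₀ hF0, neg_add_cancel, zpow_zero, mul_one, hy]
      simp only
      rw [mul_assoc, ← zpow_add₀ hfb0, neg_add_cancel, zpow_zero, mul_one]
    rw [h2]
    exact mul_mem (mul_mem h1 (zpow_mem hF2 _)) (zpow_mem hfb2 _)
  have hEE2 : E ≤ E2 := by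
    rw [← h.gen]
    refine sup_le (sup_le ?_ (adjoin_le_iff.2 ?_)) (adjoin_le_iff.2 ?_)
    · exact (le_sup_left.trans le_sup_left : M ≤ E').trans hE'2
    · rintro _ ⟨i, hi, rfl⟩
      by_cases hia : i = a
      · rw [hia]
        exact hxa2
      · by_cases hib : i = b
        · rw [hib]
          exact hxb2
        · exact hE'2 ((le_sup_right.trans le_sup_left : adjoin k (x '' T') ≤ E')
            (subset_adjoin k _ ⟨i, Finset.mem_erase.2 ⟨hib, Finset.mem_erase.2 ⟨hia, hi⟩⟩, rfl⟩))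
    · rintro _ ⟨j, rfl⟩
      exact hz2 j
  have hEq : E' ⊔ adjoin k (Set.range ![l₁, l₂]) = E := le_antisymm hE2E hEE2
  exact ⟨T', 2, A', m', τ', z', E', ![l₁, l₂], hsub, hcard, by norm_num, hSC, hEq,
    hT k L ι M E E' T T' s s 2 x f A m τ z A' m' τ' z' ![l₁, l₂] h hSC hsub hcard hEq⟩

end Pool.Agent.K1H96.SC
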