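import Pool.Agent.K1H17.SC.Stm

/-!
# Abelian covers: the algebra of the roots
-/

set_option autoImplicit false
set_option linter.overlappingInstances false

open Polynomial IntermediateField
open Pool.Agent.K1H17.SC

namespace Pool.Agent.K1H96.SC

variable {k L : Type} [Field k] [Field L] [Algebra k L] {ι : Type}

/-- The common part of the factors with two and with three branch points: `y j ^ m j = σ j * u ^ a j *
∏ ...`, `r a j = m j (r b j + ε j)`, `ε j0 = ± 1`, `r ∣ m j0`. -/
theorem roots (M : IntermediateField k L) (T' : Finset ι) {s : ℕ} (x : ι → L) (f : ι → k[X])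
    (A : Fin s → ι → ℤ) (m : Fin s → ℕ)
    (indep : AlgebraicIndependent M (fun i : T' => x i))
    (deg : ∀ i ∈ T', 1 ≤ (f i).natDegree) (sqf : ∀ i ∈ T', Squarefree (f i))
    (pos : ∀ j, 0 < m j) (dvd : ∀ j, ∀ i ∈ T', (m j : ℤ) ∣ A j i * (f i).natDegree)
    (hf : ∀ i ∈ T', aeval (x i) (f i) ≠ 0)
    (r : ℕ) (hr : 0 < r) (u : L) (hu : u ≠ 0) (σ : Fin s → L) (hσM : ∀ j, σ j ∈ M)
    (hσ : ∀ j, σ j ≠ 0) (a b ε : Fin s → ℤ) (y : Fin s → L)
    (hy : ∀ j, y j ^ m j = σ j * u ^ a j * ∏ i ∈ T', aeval (x i) (f i) ^ A j i)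
    (hab : ∀ j, (r : ℤ) * a j = m j * (r * b j + ε j)) (j0 : Fin s)
    (hε : ε j0 = 1 ∨ ε j0 = -1) (hdvd : r ∣ m j0) :
    ∃ (w : L) (A' : Fin s → ι → ℤ) (m' : Fin s → ℕ) (τ' z' : Fin s → L), w ≠ 0 ∧
      IsSC M (M ⊔ adjoin k (x '' T') ⊔ adjoin k (Set.range z')) T' x f A' m' τ' z' ∧
      z' j0 = w ^ r / u ∧ (∀ l, l ≠ j0 → z' l = y l * u ^ (-b l) / w ^ ε l) ∧
      y j0 * u ^ (-b j0) = w ^ ε j0 := by
  classical
  obtain ⟨h, hh⟩ := hdvd
  have hh0 : 0 < h := by
    rcases Nat.eq_zero_or_pos h with h0 | h0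
    · have := pos j0
      rw [hh, h0, mul_zero] at this
      exact absurd this (lt_irrefl _)
    · exact h0
  set g : Fin s → L := fun j => ∏ i ∈ T', aeval (x i) (f i) ^ A j i with hg
  have hg0 : ∀ j, g j ≠ 0 := fun j => Finset.prod_ne_zero_iff.2 fun i hi => zpow_ne_zero _ (hf i hi)
  have hy0 : ∀ j, y j ≠ 0 := by
    intro j h0
    have h1 := hy j
    rw [h0, zero_pow (pos j).ne'] at h1
    exact mul_ne_zero (mul_ne_zero (hσ j) (zpow_ne_zero _ hu)) (hg0 j) h1.symm
  -- the normalised roots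
  set Y : Fin s → L := fun j => y j * u ^ (-b j) with hY
  have hY0 : ∀ j, Y j ≠ 0 := fun j => mul_ne_zero (hy0 j) (zpow_ne_zero _ hu)
  have hYm : ∀ j, Y j ^ (m j : ℤ) = σ j * g j * u ^ (a j - m j * b j) := by
    intro j
    have h1 : y j ^ (m j : ℤ) = σ j * u ^ a j * g j := by
      rw [zpow_natCast]
      exact hy j
    rw [hY]
    simp only
    rw [mul_zpow, h1, ← zpow_mul, sub_eq_add_neg, zpow_add₀ hu,
      show -b j * (m j : ℤ) = -(m j * b j) by ring]
    ring
  have hεε : ε j0 * ε j0 = 1 := by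
    rcases hε with h | h <;> rw [h] <;> norm_num
  set w : L := Y j0 ^ ε j0 with hw
  have hw0 : w ≠ 0 := zpow_ne_zero _ (hY0 j0)
  have hwY : w ^ ε j0 = Y j0 := by
    rw [hw, ← zpow_mul, hεε, zpow_one]
  have hrZ : (r : ℤ) ≠ 0 := by exact_mod_cast hr.ne'
  have hmj0 : (m j0 : ℤ) = r * h := by exact_mod_cast hh
  have hδ0 : a j0 - m j0 * b j0 = ε j0 * h := by
    have h1 := hab j0
    rw [hmj0] at h1 ⊢
    have h2 : (r : ℤ) * (a j0 - r * h * b j0) = r * (ε j0 * h) := by
      rw [mul_sub, h1]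
      ring
    exact mul_left_cancel₀ hrZ h2
  -- the power of `w`
  have hwm : w ^ (m j0 : ℤ) = (σ j0 * g j0) ^ ε j0 * u ^ (h : ℤ) := by
    have h1 : w ^ (m j0 : ℤ) = (Y j0 ^ (m j0 : ℤ)) ^ ε j0 := by
      rw [hw, ← zpow_mul, ← zpow_mul, mul_comm]
    rw [h1, hYm j0, hδ0, mul_zpow, ← zpow_mul]
    congr 2
    rw [mul_comm (ε j0) (h : ℤ), mul_assoc, hεε, mul_one]
  have hgj : ∀ (j : Fin s) (e : ℤ), g j ^ e = ∏ i ∈ T', aeval (x i) (f i) ^ (e * A j i) := by
    intro j e
    rw [hg]
    simp only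
    rw [← Finset.prod_zpow]
    refine Finset.prod_congr rfl fun i _ => ?_
    rw [← zpow_mul, mul_comm]
  clear_value w
  refine ⟨w, fun l i => if l = j0 then ε j0 * A j0 i else
      m j0 * A l i - ε j0 * ε l * m l * A j0 i,
    fun l => if l = j0 then h else m l * m j0,
    fun l => if l = j0 then σ j0 ^ ε j0 else σ l ^ (m j0 : ℤ) * σ j0 ^ (-(ε j0 * ε l * m l)),
    fun l => if l = j0 then w ^ r / u else Y l / w ^ ε l, hw0, ?_, ?_, ?_, ?_⟩
  · refine ⟨indep, deg, sqf, ?_, ?_, ?_, ?_, ?_, rfl⟩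
    · intro l
      by_cases hl : l = j0
      · simp only [if_pos hl]
        exact hh0
      · simp only [if_neg hl]
        exact Nat.mul_pos (pos l) (pos j0)
    · intro l
      by_cases hl : l = j0
      · simp only [if_pos hl]
        exact zpow_mem (hσM j0) _
      · simp only [if_neg hl]
        exact mul_mem (zpow_mem (hσM l) _) (zpow_mem (hσM j0) _)
    · intro l
      by_cases hl : l = j0
      · simp only [if_pos hl]
        exact zpow_ne_zero _ (hσ j0)
      · simp only [if_neg hl]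
        exact mul_ne_zero (zpow_ne_zero _ (hσ l)) (zpow_ne_zero _ (hσ j0))
    · intro l
      by_cases hl : l = j0
      · simp only [if_pos hl]
        rw [← hgj j0 (ε j0), ← mul_zpow]
        have h1 : (w ^ r / u) ^ h = w ^ (m j0 : ℤ) / u ^ (h : ℤ) := by
          rw [div_pow, ← pow_mul, ← hh, zpow_natCast, zpow_natCast]
        rw [h1, hwm, mul_div_cancel_right₀ _ (zpow_ne_zero _ hu)]
      · simp only [if_neg hl]
        have h1 : (Y l / w ^ ε l) ^ (m l * m j0) =
            (Y l ^ (m l : ℤ)) ^ (m j0 : ℤ) / (w ^ (m j0 : ℤ)) ^ (ε l * m l) := by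
          rw [← zpow_natCast, Nat.cast_mul, div_zpow, ← zpow_mul, ← zpow_mul, ← zpow_mul,
            show ε l * ((m l : ℤ) * m j0) = m j0 * (ε l * m l) by ring]
        have h2 : ∏ i ∈ T', aeval (x i) (f i) ^ (m j0 * A l i - ε j0 * ε l * m l * A j0 i) =
            g l ^ (m j0 : ℤ) * g j0 ^ (-(ε j0 * ε l * m l)) := by
          rw [hgj, hgj, ← Finset.prod_mul_distrib]
          refine Finset.prod_congr rfl fun i hi => ?_
          rw [← zpow_add₀ (hf i hi)]
          congr 1
          ring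
        have h3 : (a l - m l * b l) * m j0 = h * (ε l * m l) := by
          have h4 := hab l
          have h5 : (r : ℤ) * ((a l - m l * b l) * m j0) = r * (h * (ε l * m l)) := by
            rw [hmj0]
            calc (r : ℤ) * ((a l - m l * b l) * (r * h)) = (r * a l - r * (m l * b l)) * (r * h) := by
                  ring
              _ = _ := by
                  rw [h4]
                  ring
          exact mul_left_cancel₀ hrZ h5
        have hgz : σ j0 * g j0 ≠ 0 := mul_ne_zero (hσ j0) (hg0 j0)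
        rw [h1, h2, hYm l, hwm]
        rw [mul_zpow (σ l * g l), ← zpow_mul u, h3, mul_zpow ((σ j0 * g j0) ^ ε j0), ← zpow_mul u,
          mul_div_mul_right _ _ (zpow_ne_zero _ hu), ← zpow_mul, div_eq_mul_inv, ← zpow_neg,
          mul_zpow, mul_zpow, show -(ε j0 * (ε l * m l)) = -(ε j0 * ε l * m l) by ring]
        ring
    · intro l i hi
      by_cases hl : l = j0
      · simp only [if_pos hl]
        have h1 : (h : ℤ) ∣ A j0 i * (f i).natDegree :=
          (Dvd.intro_left (r : ℤ) hmj0.symm).trans (dvd j0 i hi)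
        rw [mul_assoc]
        exact h1.mul_left _
      · simp only [if_neg hl]
        obtain ⟨c, hc⟩ := dvd l i hi
        obtain ⟨c', hc'⟩ := dvd j0 i hi
        refine ⟨c - ε j0 * ε l * c', ?_⟩
        push_cast
        calc ((m j0 : ℤ) * A l i - ε j0 * ε l * m l * A j0 i) * (f i).natDegree
            = m j0 * (A l i * (f i).natDegree) -
              ε j0 * ε l * m l * (A j0 i * (f i).natDegree) := by ring
          _ = _ := by
              rw [hc, hc']
              ring
  · simp only [if_true]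
  · intro l hl
    simp only [if_neg hl, hY]
  · exact hwY.symm

end Pool.Agent.K1H96.SC
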